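import Pool.Agent.H35.GEA.Near

/-!
# Fixed points from almost invariant families
-/

namespace Pool.Agent.H35.GEA

open FreeGroup Topology

/-- Approximation of a bounded uniformly continuous function by a Lipschitz one. -/
theorem exists_lipschitz {Γ : Type*} [Nonempty Γ] (ρ : Γ → Γ → ℝ) (hself : ∀ x, ρ x x = 0)
    (hnn : ∀ x y, 0 ≤ ρ x y) (htri : ∀ x y z, ρ x z ≤ ρ x y + ρ y z)
    (Φ : Γ → ℝ) (B : ℝ) (hB : ∀ x, |Φ x| ≤ B) (ε δ : ℝ) (hε : 0 ≤ ε) (hδ : 0 < δ)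
    (hΦ : ∀ x y, ρ x y < δ → |Φ x - Φ y| ≤ ε) :
    ∃ (L : ℝ) (Ψ : Γ → ℝ), 0 ≤ L ∧ (∀ x y, Ψ x - Ψ y ≤ L * ρ x y) ∧
      ∀ x, |Φ x - Ψ x| ≤ ε := by
  have hB0 : 0 ≤ B := (abs_nonneg _).trans (hB (Classical.arbitrary Γ))
  let L : ℝ := 2 * B / δ
  have hL : 0 ≤ L := by positivity
  have hbdd : ∀ x, BddBelow (Set.range (fun v => Φ v + L * ρ x v)) := by
    intro x
    refine ⟨-B, ?_⟩
    rintro _ ⟨v, rfl⟩
    have h1 := (abs_le.1 (hB v)).1
    have h2 := mul_nonneg hL (hnn x v)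
    show -B ≤ Φ v + L * ρ x v
    linarith
  refine ⟨L, fun x => ⨅ v, (Φ v + L * ρ x v), hL, ?_, ?_⟩
  · intro x y
    have h1 : (⨅ v, (Φ v + L * ρ x v)) - L * ρ x y ≤ ⨅ v, (Φ v + L * ρ y v) := by
      apply le_ciInf
      intro v
      have h2 := ciInf_le (hbdd x) v
      have h3 := mul_le_mul_of_nonneg_left (htri x y v) hL
      have h4 : (⨅ v, (Φ v + L * ρ x v)) ≤ Φ v + L * ρ x v := h2
      linarith
    show (⨅ v, (Φ v + L * ρ x v)) - (⨅ v, (Φ v + L * ρ y v)) ≤ L * ρ x y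
    linarith
  · intro x
    have h1 : (⨅ v, (Φ v + L * ρ x v)) ≤ Φ x := by
      have h2 := ciInf_le (hbdd x) x
      simp only [hself, mul_zero, add_zero] at h2
      exact h2
    have h2 : Φ x - ε ≤ ⨅ v, (Φ v + L * ρ x v) := by
      apply le_ciInf
      intro v
      rcases lt_or_ge (ρ x v) δ with h | h
      · have h3 := (abs_le.1 (hΦ x v h)).2
        have h4 := mul_nonneg hL (hnn x v)
        linarith
      · have h3 : L * δ ≤ L * ρ x v := mul_le_mul_of_nonneg_left h hL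
        have h4 : L * δ = 2 * B := by simp only [L]; field_simp
        have h5 := (abs_le.1 (hB v)).1
        have h6 := (abs_le.1 (hB x)).2
        linarith
    rw [abs_le]
    show -ε ≤ Φ x - (⨅ v, (Φ v + L * ρ x v)) ∧ Φ x - (⨅ v, (Φ v + L * ρ x v)) ≤ ε
    constructor <;> linarith

/-- Lipschitz functions are almost fixed somewhere. -/
theorem exists_almost_inv (ρ : FreeGroup ℕ → FreeGroup ℕ → ℝ)
    (hsymm : ∀ x y, ρ x y = ρ y x) (hinv : ∀ m k, Inv m k ρ) {B : Type*} [Fintype B]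
    (L : ℝ) (hL : 0 ≤ L) (Ψ : B → FreeGroup ℕ → ℝ)
    (hΨ : ∀ b x y, Ψ b x - Ψ b y ≤ L * ρ x y) (m : ℕ) (η : ℝ) (hη : 0 < η) :
    ∃ u : FreeGroup ℕ, ∀ (a : Fin m) (b : B),
      |Ψ b (FreeGroup.of (a : ℕ) * u) - Ψ b u| ≤ η := by
  have habs : ∀ b x y, |Ψ b x - Ψ b y| ≤ L * ρ x y := by
    intro b x y
    rw [abs_le]
    constructor
    · have := hΨ b y x
      rw [hsymm y x] at this
      linarith
    · exact hΨ b x y
  -- choice of `k`
  obtain ⟨k, hk⟩ := exists_nat_gt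
    (max (2 * L / η) (4 * ((m : ℝ) * Fintype.card B) * (4 * L ^ 2) / (η / 2) ^ 2))
  have hk1 : 2 * L / η < k := lt_of_le_of_lt (le_max_left _ _) hk
  have hk2 : 4 * ((m : ℝ) * Fintype.card B) * (4 * L ^ 2) / (η / 2) ^ 2 < k :=
    lt_of_le_of_lt (le_max_right _ _) hk
  obtain ⟨S, _, _, _, N, hN, σ, h, h1, h2⟩ := hinv m k
  have hNpos : (0 : ℝ) < N := by
    have : 0 < N := lt_of_le_of_lt (Nat.zero_le _) hN
    exact_mod_cast this
  have hkN : (k : ℝ) < N := by exact_mod_cast hN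
  obtain ⟨s, hs⟩ := exists_almost_fixed N (2 * L / N) (η / 2) σ (fun b s => Ψ b (h s))
    (by
      intro b s i a
      calc |Ψ b (h (Function.update s i a)) - Ψ b (h s)|
          ≤ L * ρ (h (Function.update s i a)) (h s) := habs _ _ _
        _ ≤ L * (2 / N) := mul_le_mul_of_nonneg_left (h2 s i a).le hL
        _ = 2 * L / N := by ring)
    (by positivity)
    (by
      rw [Fintype.card_fin]
      have e1 : (N : ℝ) * (2 * L / N) ^ 2 = 4 * L ^ 2 / N := by
        field_simp; ring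
      rw [e1]
      have e2 : 4 * ((m : ℝ) * Fintype.card B) * (4 * L ^ 2) < (η / 2) ^ 2 * N := by
        rw [div_lt_iff₀ (by positivity)] at hk2
        have e3 : (k : ℝ) * (η / 2) ^ 2 < N * (η / 2) ^ 2 :=
          mul_lt_mul_of_pos_right hkN (by positivity)
        linarith
      rw [mul_div_assoc', div_lt_iff₀ hNpos]
      exact e2)
  refine ⟨h s, fun a b => ?_⟩
  have e1 : |Ψ b (FreeGroup.of (a : ℕ) * h s) - Ψ b (h (σ a s))| ≤ η / 2 := by
    calc |Ψ b (FreeGroup.of (a : ℕ) * h s) - Ψ b (h (σ a s))|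
        ≤ L * ρ (FreeGroup.of (a : ℕ) * h s) (h (σ a s)) := habs _ _ _
      _ ≤ L * (1 / ((k : ℝ) + 1)) := mul_le_mul_of_nonneg_left (h1 a s).le hL
      _ ≤ η / 2 := by
        have hk0 : (0 : ℝ) < (k : ℝ) + 1 := by positivity
        rw [mul_one_div, div_le_iff₀ hk0]
        rw [div_lt_iff₀ hη] at hk1
        nlinarith
  have e2 := hs a b
  have e3 : Ψ b (FreeGroup.of (a : ℕ) * h s) - Ψ b (h s)
      = (Ψ b (FreeGroup.of (a : ℕ) * h s) - Ψ b (h (σ a s))) + (Ψ b (h (σ a s)) - Ψ b (h s)) := by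
    ring
  rw [e3]
  calc _ ≤ |Ψ b (FreeGroup.of (a : ℕ) * h s) - Ψ b (h (σ a s))|
        + |Ψ b (h (σ a s)) - Ψ b (h s)| := abs_add_le _ _
    _ ≤ η := by linarith

/-- A fixed point for the dense subgroup. -/
theorem exists_fixed {G : Type*} [Group G] [MetricSpace G] (ι : FreeGroup ℕ →* G)
    (hdense : DenseRange ι) (ρ : FreeGroup ℕ → FreeGroup ℕ → ℝ) (hρ : IsBiPseudo ρ)
    (hdist : ∀ x y, dist (ι x) (ι y) = ρ x y) (hinv : ∀ m k, Inv m k ρ)
    (X : Type*) [TopologicalSpace X] [CompactSpace X] [T2Space X] [Nonempty X] [MulAction G X]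
    [ContinuousSMul G X] : ∃ x : X, ∀ g : G, g • x = x := by
  classical
  let x₀ : X := Classical.arbitrary X
  -- uniform continuity of orbit functions
  have huc : ∀ (f : C(X, ℝ)) (ε : ℝ), 0 < ε → ∃ δ > 0, ∀ u v : FreeGroup ℕ, ρ u v < δ →
      |f (ι u • x₀) - f (ι v • x₀)| ≤ ε := by
    intro f ε hε
    have h1 : ∀ᶠ g : G in 𝓝 1, ∀ x ∈ (Set.univ : Set X), |f (g • x) - f x| < ε := by
      apply isCompact_univ.eventually_forall_of_forall_eventually
      intro x _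
      have hcont : Continuous (fun z : G × X => |f (z.1 • z.2) - f z.2|) := by
        fun_prop
      have h2 : (fun z : G × X => |f (z.1 • z.2) - f z.2|) (1, x) < ε := by
        simp [hε]
      exact hcont.continuousAt.eventually_lt continuousAt_const h2
    rw [Metric.eventually_nhds_iff] at h1
    obtain ⟨δ, hδ, h1⟩ := h1
    refine ⟨δ, hδ, fun u v huv => ?_⟩
    have h3 : dist (ι (u * v⁻¹)) 1 < δ := by
      have e1 : ρ (u * v⁻¹) 1 = ρ u v := by
        have := hρ.biinv 1 u v v⁻¹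
        simpa using this
      rw [← map_one ι, hdist, e1]
      exact huv
    have h4 := h1 h3 (ι v • x₀) (Set.mem_univ _)
    have h5 : ι (u * v⁻¹) • ι v • x₀ = ι u • x₀ := by
      rw [smul_smul, ← _root_.map_mul, inv_mul_cancel_right]
    rw [h5] at h4
    exact h4.le
  -- the closed sets
  let Z : ℕ × C(X, ℝ) × ℕ → Set X := fun p =>
    {x | |p.2.1 (ι (FreeGroup.of p.1) • x) - p.2.1 x| ≤ 1 / ((p.2.2 : ℝ) + 1)}
  have hZclosed : ∀ p, IsClosed (Z p) := by
    intro p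
    apply isClosed_le
    · fun_prop
    · fun_prop
  have hfin : ∀ T : Finset (ℕ × C(X, ℝ) × ℕ), (⋂ p ∈ T, Z p).Nonempty := by
    intro T
    obtain ⟨m, hm⟩ : ∃ m : ℕ, ∀ p ∈ T, p.1 < m := by
      refine ⟨T.sup (fun p => p.1) + 1, fun p hp => ?_⟩
      exact Nat.lt_succ_of_le (Finset.le_sup (f := fun p => p.1) hp)
    obtain ⟨K, hK⟩ : ∃ K : ℕ, ∀ p ∈ T, p.2.2 ≤ K :=
      ⟨T.sup (fun p => p.2.2), fun p hp => Finset.le_sup (f := fun p => p.2.2) hp⟩
    let ε : ℝ := 1 / ((K : ℝ) + 1)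
    have hε : 0 < ε := by positivity
    have hlip : ∀ p : T, ∃ (L : ℝ) (Ψ : FreeGroup ℕ → ℝ), 0 ≤ L ∧
        (∀ x y, Ψ x - Ψ y ≤ L * ρ x y) ∧ ∀ u, |p.1.2.1 (ι u • x₀) - Ψ u| ≤ ε / 3 := by
      intro p
      obtain ⟨δ, hδ, h⟩ := huc p.1.2.1 (ε / 3) (by positivity)
      obtain ⟨B, hB⟩ := isCompact_univ.exists_bound_of_continuousOn
        (f := fun x => p.1.2.1 x) (by fun_prop)
      exact exists_lipschitz ρ hρ.self hρ.nonneg hρ.triangle (fun u => p.1.2.1 (ι u • x₀)) B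
        (fun u => by simpa using hB (ι u • x₀) (Set.mem_univ _)) (ε / 3) δ (by positivity) hδ h
    choose L Ψ hL hΨ hΨ' using hlip
    have hLs : ∀ p : T, L p ≤ ∑ q, L q := fun p =>
      Finset.single_le_sum (f := L) (fun q _ => hL q) (Finset.mem_univ p)
    obtain ⟨u, hu⟩ := exists_almost_inv ρ hρ.symm hinv (∑ q, L q)
      (Finset.sum_nonneg (fun q _ => hL q)) Ψ
      (fun p x y => (hΨ p x y).trans
        (mul_le_mul_of_nonneg_right (hLs p) (hρ.nonneg x y))) m (ε / 3) (by positivity)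
    refine ⟨ι u • x₀, ?_⟩
    simp only [Set.mem_iInter]
    intro p hp
    show |p.2.1 (ι (FreeGroup.of p.1) • ι u • x₀) - p.2.1 (ι u • x₀)| ≤ 1 / ((p.2.2 : ℝ) + 1)
    have h1 := hu ⟨p.1, hm p hp⟩ ⟨p, hp⟩
    have h2 := hΨ' ⟨p, hp⟩ (FreeGroup.of p.1 * u)
    have h3 := hΨ' ⟨p, hp⟩ u
    simp only at h1 h2 h3
    rw [smul_smul, ← _root_.map_mul]
    have h4 : ε ≤ 1 / ((p.2.2 : ℝ) + 1) := by
      apply one_div_le_one_div_of_le (by positivity)
      have : (p.2.2 : ℝ) ≤ K := by exact_mod_cast hK p hp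
      linarith
    rw [abs_le] at h1 h2 h3 ⊢
    constructor <;> linarith [h1.1, h1.2, h2.1, h2.2, h3.1, h3.2]
  obtain ⟨y, hy⟩ : (⋂ p, Z p).Nonempty := CompactSpace.iInter_nonempty hZclosed hfin
  rw [Set.mem_iInter] at hy
  have hgen : ∀ i, ι (FreeGroup.of i) • y = y := by
    intro i
    by_contra hne
    obtain ⟨f, hf0, hf1, _⟩ := exists_continuous_zero_one_of_isClosed
      (isClosed_singleton (x := ι (FreeGroup.of i) • y)) (isClosed_singleton (x := y))
      (by simpa using hne)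
    have h0 : f (ι (FreeGroup.of i) • y) = 0 := hf0 rfl
    have h1 : f y = 1 := hf1 rfl
    have h2 := hy (i, f, 1)
    have h3 : |f (ι (FreeGroup.of i) • y) - f y| ≤ 1 / (((1 : ℕ) : ℝ) + 1) := h2
    rw [h0, h1] at h3
    norm_num at h3
  refine ⟨y, ?_⟩
  have hall : ∀ u : FreeGroup ℕ, ι u • y = y := by
    intro u
    induction u using FreeGroup.induction_on with
    | C1 => rw [_root_.map_one, one_smul]
    | of i => exact hgen i
    | inv_of i ih => rw [_root_.map_inv, inv_smul_eq_iff]; exact (hgen i).symm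
    | mul x z ihx ihz => rw [_root_.map_mul, mul_smul, ihz, ihx]
  have hclosed : IsClosed {g : G | g • y = y} := isClosed_eq (by fun_prop) continuous_const
  intro g
  have : g ∈ closure (Set.range ι) := hdense g
  exact closure_minimal (by rintro _ ⟨u, rfl⟩; exact hall u) hclosed this

end Pool.Agent.H35.GEA
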