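import Mathlib

/-!
# Finite groups whose Cayley graphs have large girth, and partial homomorphisms along few edges
-/

namespace Pool.Agent.H35.GEA

open FreeGroup

section Ball

variable {m : ℕ}

/-- The ball of radius `M` of the free group of rank `m`. -/
abbrev Ball (m M : ℕ) : Type := {u : FreeGroup (Fin m) // u.toWord.length ≤ M}

instance finiteBall (m M : ℕ) : Finite (Ball m M) := by
  have h := (List.finite_length_le (Fin m × Bool) M).to_subtype
  refine Finite.of_injective
    (fun u : Ball m M => (⟨u.1.toWord, u.2⟩ : {l : List (Fin m × Bool) | l.length ≤ M})) ?_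
  intro u v huv
  have h1 : u.1.toWord = v.1.toWord := congrArg (fun z => z.1) huv
  exact Subtype.ext (toWord_injective h1)

noncomputable instance fintypeBall (m M : ℕ) : Fintype (Ball m M) := Fintype.ofFinite _

/-- Partial left multiplication by a generator on the ball. -/
noncomputable def partialMul (M : ℕ) (a : Fin m) :
    {u : Ball m M // (of a * u.1).toWord.length ≤ M} ≃
      {v : Ball m M // ((of a)⁻¹ * v.1).toWord.length ≤ M} where
  toFun u := ⟨⟨of a * u.1.1, u.2⟩, by
    have := u.1.2
    simpa using this⟩
  invFun v := ⟨⟨(of a)⁻¹ * v.1.1, v.2⟩, by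
    have := v.1.2
    simpa using this⟩
  left_inv u := by
    apply Subtype.ext
    apply Subtype.ext
    simp
  right_inv v := by
    apply Subtype.ext
    apply Subtype.ext
    simp

/-- A permutation of the ball extending partial left multiplication. -/
noncomputable def tau (M : ℕ) (a : Fin m) : Equiv.Perm (Ball m M) := by
  classical
  exact (partialMul M a).extendSubtype

theorem tau_apply (M : ℕ) (a : Fin m) (u : Ball m M) (h : (of a * u.1).toWord.length ≤ M) :
    tau M a u = ⟨of a * u.1, h⟩ := by
  classical
  unfold tau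
  exact Equiv.extendSubtype_apply_of_mem (partialMul M a) u h

theorem tau_inv_apply (M : ℕ) (a : Fin m) (v : Ball m M)
    (h : ((of a)⁻¹ * v.1).toWord.length ≤ M) :
    (tau M a)⁻¹ v = ⟨(of a)⁻¹ * v.1, h⟩ := by
  have h' : (of a * ((of a)⁻¹ * v.1)).toWord.length ≤ M := by
    have := v.2
    simpa using this
  have := tau_apply M a ⟨(of a)⁻¹ * v.1, h⟩ h'
  rw [Equiv.Perm.inv_eq_iff_eq, this]
  apply Subtype.ext
  simp

/-- The identity element as an element of the ball. -/
def ballOne (m M : ℕ) : Ball m M := ⟨1, by simp⟩

theorem lift_tau_apply (M : ℕ) : ∀ (L : List (Fin m × Bool)) (hL : IsReduced L)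
    (hM : (mk L : FreeGroup (Fin m)).toWord.length ≤ M),
    (FreeGroup.lift (tau (m := m) M) (mk L)) (ballOne m M) = ⟨mk L, hM⟩ := by
  intro L
  induction L with
  | nil =>
    intro hL hM
    rfl
  | cons p L ih =>
    intro hL hM
    have hL' : IsReduced L := List.IsChain.suffix hL (List.suffix_cons p L)
    have hw : (mk (p :: L) : FreeGroup (Fin m)).toWord = p :: L := by
      rw [toWord_mk, hL.reduce_eq]
    have hw' : (mk L : FreeGroup (Fin m)).toWord = L := by
      rw [toWord_mk, hL'.reduce_eq]
    have hM' : (mk L : FreeGroup (Fin m)).toWord.length ≤ M := by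
      rw [hw'] 
      rw [hw] at hM
      simp at hM
      omega
    have hsplit : (mk (p :: L) : FreeGroup (Fin m)) = mk [p] * mk L := by
      rw [mul_mk]; rfl
    have ih' := ih hL' hM'
    obtain ⟨a, b⟩ := p
    cases b with
    | true =>
      have h1 : (mk [(a, true)] : FreeGroup (Fin m)) = of a := rfl
      have h2 : (of a * (⟨mk L, hM'⟩ : Ball m M).1).toWord.length ≤ M := by
        rw [← h1, ← hsplit]; exact hM
      have h3 : (FreeGroup.lift (tau (m := m) M) (mk ((a, true) :: L))) (ballOne m M)
          = tau M a ((FreeGroup.lift (tau (m := m) M) (mk L)) (ballOne m M)) := by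
        rw [hsplit, _root_.map_mul, h1, lift_apply_of]; rfl
      rw [h3, ih', tau_apply M a _ h2]
      apply Subtype.ext
      show of a * mk L = mk ((a, true) :: L)
      rw [hsplit, h1]
    | false =>
      have h1 : (mk [(a, false)] : FreeGroup (Fin m)) = (of a)⁻¹ := rfl
      have h2 : ((of a)⁻¹ * (⟨mk L, hM'⟩ : Ball m M).1).toWord.length ≤ M := by
        rw [← h1, ← hsplit]; exact hM
      have h3 : (FreeGroup.lift (tau (m := m) M) (mk ((a, false) :: L))) (ballOne m M)
          = (tau M a)⁻¹ ((FreeGroup.lift (tau (m := m) M) (mk L)) (ballOne m M)) := by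
        rw [hsplit, _root_.map_mul, h1, _root_.map_inv, lift_apply_of]; rfl
      rw [h3, ih', tau_inv_apply M a _ h2]
      apply Subtype.ext
      show (of a)⁻¹ * mk L = mk ((a, false) :: L)
      rw [hsplit, h1]

theorem lift_tau_injOn (M : ℕ) (u v : FreeGroup (Fin m)) (hu : u.toWord.length ≤ M)
    (hv : v.toWord.length ≤ M)
    (huv : FreeGroup.lift (tau (m := m) M) u = FreeGroup.lift (tau (m := m) M) v) : u = v := by
  have h1 : (mk u.toWord : FreeGroup (Fin m)) = u := mk_toWord
  have h2 : (mk v.toWord : FreeGroup (Fin m)) = v := mk_toWord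
  have r1 : IsReduced u.toWord := IsReduced.of_reduce_eq (reduce_toWord u)
  have r2 : IsReduced v.toWord := IsReduced.of_reduce_eq (reduce_toWord v)
  have e1 := lift_tau_apply M u.toWord r1 (by rw [h1]; exact hu)
  have e2 := lift_tau_apply M v.toWord r2 (by rw [h2]; exact hv)
  have e3 : (FreeGroup.lift (tau (m := m) M) (mk u.toWord)) (ballOne m M)
      = (FreeGroup.lift (tau (m := m) M) (mk v.toWord)) (ballOne m M) := by
    rw [h1, h2, huv]
  rw [e1, e2] at e3
  have e4 := congrArg (fun z => z.1) e3
  simp only at e4
  rw [h1, h2] at e4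
  exact e4

end Ball

section Holonomy

variable {m : ℕ} {S : Type} [Group S] (t : Fin m → S) (E : Set (S × Fin m))

/-- `Reach t E x u y`: some path in the labelled graph with edge set `E` leads from `x` to `y`
and has label `u`. -/
inductive Reach (x : S) : FreeGroup (Fin m) → S → Prop
  | refl : Reach x 1 x
  | fwd (u : FreeGroup (Fin m)) (y : S) (a : Fin m) :
      Reach x u y → (y, a) ∈ E → Reach x (of a * u) (t a * y)
  | bwd (u : FreeGroup (Fin m)) (y : S) (a : Fin m) :
      Reach x u (t a * y) → (y, a) ∈ E → Reach x ((of a)⁻¹ * u) y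

variable {t E}

theorem Reach.eq {x y : S} {u : FreeGroup (Fin m)} (h : Reach t E x u y) :
    y = FreeGroup.lift t u * x := by
  induction h with
  | refl => simp
  | fwd u y a _ _ ih => rw [_root_.map_mul, lift_apply_of, mul_assoc, ← ih]
  | bwd u y a _ _ ih => rw [_root_.map_mul, _root_.map_inv, lift_apply_of, mul_assoc, ← ih]; group

theorem Reach.trans {x y z : S} {u v : FreeGroup (Fin m)} (h : Reach t E x u y)
    (h' : Reach t E y v z) : Reach t E x (v * u) z := by
  induction h' with
  | refl => simpa using h
  | fwd v z a _ he ih => rw [mul_assoc]; exact Reach.fwd _ _ _ ih he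
  | bwd v z a _ he ih => rw [mul_assoc]; exact Reach.bwd _ _ _ ih he

theorem Reach.symm {x y : S} {u : FreeGroup (Fin m)} (h : Reach t E x u y) :
    Reach t E y u⁻¹ x := by
  induction h with
  | refl => simpa using (Reach.refl (t := t) (E := E) (x := x))
  | fwd u y a _ he ih =>
    have h1 : Reach t E (t a * y) ((of a)⁻¹ * 1) y := Reach.bwd 1 y a Reach.refl he
    have h2 := h1.trans ih
    simpa [mul_inv_rev] using h2
  | bwd u y a _ he ih =>
    have h1 : Reach t E y (of a * 1) (t a * y) := Reach.fwd 1 y a Reach.refl he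
    have h2 := h1.trans ih
    simpa [mul_inv_rev] using h2

theorem toWord_of_mul (a : Fin m) (b : Bool) (u : FreeGroup (Fin m)) :
    (mk [(a, b)] * u).toWord = (a, b) :: u.toWord ∨
      ∃ p, u.toWord = p :: (mk [(a, b)] * u).toWord := by
  have h : (mk [(a, b)] * u).toWord = reduce ((a, b) :: u.toWord) := by
    conv_lhs => rw [← mk_toWord (x := u)]
    rw [mul_mk]
    rfl
  rw [h]
  rw [reduce.cons, reduce_toWord]
  cases hw : u.toWord with
  | nil => left; rfl
  | cons hd tl =>
    by_cases hc : (a, b).1 = hd.1 ∧ (a, b).2 = !hd.2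
    · right
      refine ⟨hd, ?_⟩
      show hd :: tl = hd :: (if (a, b).1 = hd.1 ∧ (a, b).2 = !hd.2 then tl else (a, b) :: hd :: tl)
      rw [if_pos hc]
    · left
      show (if (a, b).1 = hd.1 ∧ (a, b).2 = !hd.2 then tl else (a, b) :: hd :: tl) = _
      rw [if_neg hc]

/-- The label set of paths from `x` is closed under suffixes. -/
theorem Reach.suffix {x y : S} {u : FreeGroup (Fin m)} (h : Reach t E x u y) :
    ∀ L, L <:+ u.toWord → ∃ z, Reach t E x (mk L) z := by
  induction h with
  | refl =>
    intro L hL
    rw [toWord_one, List.suffix_nil] at hL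
    subst hL
    exact ⟨x, Reach.refl⟩
  | fwd u y a hr he ih =>
    intro L hL
    have h1 : (of a : FreeGroup (Fin m)) = mk [(a, true)] := rfl
    have hfull : Reach t E x (of a * u) (t a * y) := Reach.fwd _ _ _ hr he
    rcases toWord_of_mul a true u with hw | ⟨p, hw⟩
    · rw [← h1] at hw
      rw [hw, List.suffix_cons_iff] at hL
      rcases hL with hL | hL
      · refine ⟨t a * y, ?_⟩
        rw [hL, ← hw, mk_toWord]
        exact hfull
      · exact ih L hL
    · rw [← h1] at hw
      apply ih L
      rw [hw, List.suffix_cons_iff]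
      exact Or.inr hL
  | bwd u y a hr he ih =>
    intro L hL
    have h1 : (of a : FreeGroup (Fin m))⁻¹ = mk [(a, false)] := rfl
    have hfull : Reach t E x ((of a)⁻¹ * u) y := Reach.bwd _ _ _ hr he
    rcases toWord_of_mul a false u with hw | ⟨p, hw⟩
    · rw [← h1] at hw
      rw [hw, List.suffix_cons_iff] at hL
      rcases hL with hL | hL
      · refine ⟨y, ?_⟩
        rw [hL, ← hw, mk_toWord]
        exact hfull
      · exact ih L hL
    · rw [← h1] at hw
      apply ih L
      rw [hw, List.suffix_cons_iff]
      exact Or.inr hL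

theorem Reach.touch {x y : S} {u : FreeGroup (Fin m)} (h : Reach t E x u y) :
    y = x ∨ (∃ a, (y, a) ∈ E) ∨ (∃ z a, (z, a) ∈ E ∧ y = t a * z) := by
  cases h with
  | refl => left; rfl
  | fwd u y a _ he => right; right; exact ⟨_, _, he, rfl⟩
  | bwd u y a _ he => right; left; exact ⟨_, he⟩

end Holonomy

section Main

variable {m : ℕ} {S : Type} [Group S] {t : Fin m → S}

/-- If `lift t` is injective on the ball of radius `2 K + 1` then a path inside a set of at most
`K` edges has a short label. -/
theorem Reach.length_le (E : Finset (S × Fin m)) (K : ℕ) (hE : E.card ≤ K)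
    (hinj : ∀ u v : FreeGroup (Fin m), u.toWord.length ≤ 2 * K + 1 →
      v.toWord.length ≤ 2 * K + 1 → FreeGroup.lift t u = FreeGroup.lift t v → u = v)
    {x y : S} {u : FreeGroup (Fin m)} (h : Reach t (E : Set (S × Fin m)) x u y) :
    u.toWord.length ≤ 2 * K := by
  classical
  by_contra hcon
  push Not at hcon
  -- the touched vertices
  let V : Finset S := insert x ((E.image (fun e => e.1)) ∪ (E.image (fun e => t e.2 * e.1)))
  have hV : V.card ≤ 2 * K + 1 := by
    calc V.card ≤ ((E.image (fun e => e.1)) ∪ (E.image (fun e => t e.2 * e.1))).card + 1 :=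
          Finset.card_insert_le _ _
      _ ≤ (E.image (fun e => e.1)).card + (E.image (fun e => t e.2 * e.1)).card + 1 := by
          have := Finset.card_union_le (E.image (fun e => e.1)) (E.image (fun e => t e.2 * e.1))
          omega
      _ ≤ 2 * K + 1 := by
          have h1 := Finset.card_image_le (s := E) (f := fun e => e.1)
          have h2 := Finset.card_image_le (s := E) (f := fun e => t e.2 * e.1)
          omega
  have hred : IsReduced u.toWord := IsReduced.of_reduce_eq (reduce_toWord u)
  let suf : ℕ → List (Fin m × Bool) := fun i => u.toWord.drop (u.toWord.length - i)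
  have hsuf : ∀ i, suf i <:+ u.toWord := fun i => List.drop_suffix _ _
  have hlen : ∀ i, i ≤ 2 * K + 1 → (suf i).length = i := by
    intro i hi
    simp only [suf, List.length_drop]
    omega
  have hsufred : ∀ i, reduce (suf i) = suf i := fun i =>
    IsReduced.reduce_eq (List.IsChain.suffix hred (hsuf i))
  have hmem : ∀ i, FreeGroup.lift t (mk (suf i)) * x ∈ V := by
    intro i
    obtain ⟨z, hz⟩ := h.suffix (suf i) (hsuf i)
    rw [← hz.eq]
    rcases hz.touch with h1 | ⟨a, ha⟩ | ⟨w, a, ha, h1⟩
    · rw [h1]; exact Finset.mem_insert_self _ _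
    · apply Finset.mem_insert_of_mem
      apply Finset.mem_union_left
      rw [Finset.mem_image]
      exact ⟨(z, a), by exact_mod_cast ha, rfl⟩
    · apply Finset.mem_insert_of_mem
      apply Finset.mem_union_right
      rw [Finset.mem_image]
      exact ⟨(w, a), by exact_mod_cast ha, h1.symm⟩
  -- pigeonhole
  obtain ⟨i, hi, j, hj, hij, hEq⟩ := Finset.exists_ne_map_eq_of_card_lt_of_maps_to
    (s := Finset.range (2 * K + 2)) (t := V)
    (f := fun i => FreeGroup.lift t (mk (suf i)) * x)
    (by rw [Finset.card_range]; omega)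
    (by intro i _; exact hmem i)
  rw [Finset.mem_range] at hi hj
  have hEq' : FreeGroup.lift t (mk (suf i)) = FreeGroup.lift t (mk (suf j)) :=
    mul_right_cancel hEq
  have hwi : (mk (suf i) : FreeGroup (Fin m)).toWord = suf i := by rw [toWord_mk, hsufred]
  have hwj : (mk (suf j) : FreeGroup (Fin m)).toWord = suf j := by rw [toWord_mk, hsufred]
  have := hinj (mk (suf i)) (mk (suf j)) (by rw [hwi, hlen i (by omega)]; omega)
    (by rw [hwj, hlen j (by omega)]; omega) hEq'
  have h2 : (suf i).length = (suf j).length := by rw [← hwi, ← hwj, this]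
  rw [hlen i (by omega), hlen j (by omega)] at h2
  exact hij h2

/-- Along at most `K` edges of a Cayley graph of large girth there is a map to the free group
compatible with the labels. -/
theorem exists_partial_hom (E : Finset (S × Fin m)) (K : ℕ) (hE : E.card ≤ K)
    (hinj : ∀ u v : FreeGroup (Fin m), u.toWord.length ≤ 2 * K + 1 →
      v.toWord.length ≤ 2 * K + 1 → FreeGroup.lift t u = FreeGroup.lift t v → u = v) :
    ∃ w : S → FreeGroup (Fin m), ∀ e ∈ E, w (t e.2 * e.1) = of e.2 * w e.1 := by
  classical
  let R : S → FreeGroup (Fin m) → S → Prop := Reach t (E : Set (S × Fin m))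
  have huniq : ∀ x y u v, R x u y → R x v y → u = v := by
    intro x y u v h1 h2
    have l1 := Reach.length_le E K hE hinj h1
    have l2 := Reach.length_le E K hE hinj h2
    apply hinj u v (by omega) (by omega)
    have e1 := h1.eq
    have e2 := h2.eq
    rw [e1] at e2
    exact mul_right_cancel e2
  let st : Setoid S :=
    { r := fun x y => ∃ u, R x u y
      iseqv :=
        { refl := fun x => ⟨1, Reach.refl⟩
          symm := fun ⟨u, h⟩ => ⟨u⁻¹, h.symm⟩
          trans := fun ⟨u, h⟩ ⟨v, h'⟩ => ⟨v * u, h.trans h'⟩ } }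
  let root : S → S := fun y => (Quotient.mk st y).out
  have hroot : ∀ y, ∃ u, R (root y) u y := fun y => by
    have h := Quotient.out_eq (Quotient.mk st y)
    exact Quotient.exact h
  choose w hw using hroot
  refine ⟨w, ?_⟩
  rintro ⟨s, a⟩ he
  have h1 : R s (of a * 1) (t a * s) := Reach.fwd 1 s a Reach.refl (by exact_mod_cast he)
  have h2 : root (t a * s) = root s := by
    have : Quotient.mk st (t a * s) = Quotient.mk st s :=
      Quotient.sound ⟨_, h1.symm⟩
    simp only [root, this]
  have h3 : R (root s) (of a * 1 * w s) (t a * s) := (hw s).trans h1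
  have h4 := hw (t a * s)
  rw [h2] at h4
  have := huniq _ _ _ _ h4 h3
  simpa using this

/-- For all `m` and `K` there is a finite group with `m` marked elements such that any at most `K`
edges of the Cayley graph carry a label-compatible map to the free group. -/
theorem exists_finite_group (m K : ℕ) :
    ∃ (S : Type) (_ : Group S) (_ : Fintype S) (t : Fin m → S),
      ∀ E : Finset (S × Fin m), E.card ≤ K →
        ∃ w : S → FreeGroup (Fin m), ∀ e ∈ E, w (t e.2 * e.1) = of e.2 * w e.1 := by
  classical
  refine ⟨Equiv.Perm (Ball m (2 * K + 1)), inferInstance, inferInstance, tau (2 * K + 1), ?_⟩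
  intro E hE
  exact exists_partial_hom E K hE (fun u v hu hv huv => lift_tau_injOn _ u v hu hv huv)

end Main

end Pool.Agent.H35.GEA
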