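import Mathlib

/-!
# The Ky Fan pseudometric of a covering submeasure on a power of a group
-/

namespace Pool.Agent.H35.GEA

/-- Bi-invariant pseudometrics with values in `[0, 1]` on a group. -/
structure IsBiPseudo {Γ : Type*} [Group Γ] (ρ : Γ → Γ → ℝ) : Prop where
  nonneg : ∀ x y, 0 ≤ ρ x y
  le_one : ∀ x y, ρ x y ≤ 1
  self : ∀ x, ρ x x = 0
  symm : ∀ x y, ρ x y = ρ y x
  triangle : ∀ x y z, ρ x z ≤ ρ x y + ρ y z
  biinv : ∀ a x y b, ρ (a * x * b) (a * y * b) = ρ x y

section

variable {Γ S A : Type} [Group Γ] (t : A → S → S) (γ : A → Γ) (K : ℝ) (ρ : Γ → Γ → ℝ)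

/-- A map `f : S → Γ` satisfies the labelled edge `e = (s, a)` if `f (t a s) = γ a * f s`. -/
def Sat (e : S × A) (f : S → Γ) : Prop := f (t e.2 e.1) = γ e.2 * f e.1

/-- The admissible radii for the Ky Fan distance. -/
def radii (x y : (S → Γ) → Γ) : Set ℝ :=
  {r | 0 ≤ r ∧ ∃ E : Finset (S × A), (E.card : ℝ) ≤ K * r ∧
    ∀ f : S → Γ, (∀ e ∈ E, Sat t γ e f) → ρ (x f) (y f) ≤ r}

/-- The Ky Fan distance of two maps `(S → Γ) → Γ` with respect to the submeasure
`E.card / K` of the complement of the set of functions satisfying all edges of `E`. -/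
noncomputable def kf (x y : (S → Γ) → Γ) : ℝ := sInf (radii t γ K ρ x y)

variable {t γ K ρ}

theorem radii_bdd (x y : (S → Γ) → Γ) : BddBelow (radii t γ K ρ x y) := ⟨0, fun _ h => h.1⟩

theorem one_mem_radii (hK : 0 ≤ K) (hρ : IsBiPseudo ρ) (x y : (S → Γ) → Γ) :
    (1 : ℝ) ∈ radii t γ K ρ x y :=
  ⟨zero_le_one, ∅, by simpa using hK, fun f _ => hρ.le_one _ _⟩

theorem kf_le_of_mem {x y : (S → Γ) → Γ} {r : ℝ} (h : r ∈ radii t γ K ρ x y) :
    kf t γ K ρ x y ≤ r := csInf_le (radii_bdd x y) h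

theorem kf_isBiPseudo (hK : 0 ≤ K) (hρ : IsBiPseudo ρ) :
    IsBiPseudo (kf t γ K ρ : ((S → Γ) → Γ) → ((S → Γ) → Γ) → ℝ) where
  nonneg x y := le_csInf ⟨1, one_mem_radii hK hρ x y⟩ (fun _ h => h.1)
  le_one x y := kf_le_of_mem (one_mem_radii hK hρ x y)
  self x := by
    apply le_antisymm
    · apply kf_le_of_mem
      refine ⟨le_rfl, ∅, by simp, fun f _ => ?_⟩
      rw [hρ.self]
    · exact le_csInf ⟨1, one_mem_radii hK hρ x x⟩ (fun _ h => h.1)
  symm x y := by
    unfold kf
    congr 1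
    ext r
    simp only [radii, Set.mem_ofPred_eq]
    constructor
    · rintro ⟨h0, E, hE, h⟩
      exact ⟨h0, E, hE, fun f hf => by rw [hρ.symm]; exact h f hf⟩
    · rintro ⟨h0, E, hE, h⟩
      exact ⟨h0, E, hE, fun f hf => by rw [hρ.symm]; exact h f hf⟩
  triangle x y z := by
    classical
    have key : ∀ r ∈ radii t γ K ρ x y, ∀ r' ∈ radii t γ K ρ y z, kf t γ K ρ x z ≤ r + r' := by
      rintro r ⟨h0, E, hE, h⟩ r' ⟨h0', E', hE', h'⟩
      apply kf_le_of_mem
      refine ⟨add_nonneg h0 h0', E ∪ E', ?_, ?_⟩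
      · have h1 : ((E ∪ E').card : ℝ) ≤ (E.card : ℝ) + E'.card := by
          exact_mod_cast Finset.card_union_le E E'
        linarith
      · intro f hf
        have e1 := h f (fun e he => hf e (Finset.mem_union_left _ he))
        have e2 := h' f (fun e he => hf e (Finset.mem_union_right _ he))
        have e3 := hρ.triangle (x f) (y f) (z f)
        linarith
    have h1 : ∀ r ∈ radii t γ K ρ x y, kf t γ K ρ x z - r ≤ kf t γ K ρ y z := by
      intro r hr
      apply le_csInf ⟨1, one_mem_radii hK hρ y z⟩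
      intro r' hr'
      have := key r hr r' hr'
      linarith
    have h2 : kf t γ K ρ x z - kf t γ K ρ y z ≤ kf t γ K ρ x y := by
      apply le_csInf ⟨1, one_mem_radii hK hρ x y⟩
      intro r hr
      have := h1 r hr
      linarith
    linarith
  biinv a x y b := by
    unfold kf
    congr 1
    ext r
    simp only [radii, Set.mem_ofPred_eq, Pi.mul_apply, hρ.biinv]

/-- The diagonal embedding is isometric when any at most `K` edges are simultaneously
satisfiable. -/
theorem kf_const (hK : 0 ≤ K) (hρ : IsBiPseudo ρ)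
    (hsat : ∀ E : Finset (S × A), (E.card : ℝ) ≤ K → ∃ f : S → Γ, ∀ e ∈ E, Sat t γ e f)
    (g g' : Γ) : kf t γ K ρ (fun _ => g) (fun _ => g') = ρ g g' := by
  apply le_antisymm
  · apply kf_le_of_mem
    refine ⟨hρ.nonneg _ _, ∅, ?_, fun f _ => le_rfl⟩
    simpa using mul_nonneg hK (hρ.nonneg g g')
  · apply le_csInf ⟨1, one_mem_radii hK hρ _ _⟩
    rintro r ⟨h0, E, hE, h⟩
    rcases le_or_gt 1 r with h1 | h1
    · exact (hρ.le_one g g').trans h1
    · have hE' : (E.card : ℝ) ≤ K := by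
        have : K * r ≤ K * 1 := mul_le_mul_of_nonneg_left h1.le hK
        linarith
      obtain ⟨f, hf⟩ := hsat E hE'
      exact h f hf

/-- The evaluation maps are almost equivariant. -/
theorem kf_eval (hK : 0 < K) (hρ : IsBiPseudo ρ) (a : A) (s : S) :
    kf t γ K ρ (fun f : S → Γ => γ a * f s) (fun f => f (t a s)) ≤ 1 / K := by
  classical
  apply kf_le_of_mem
  refine ⟨by positivity, {(s, a)}, ?_, ?_⟩
  · rw [Finset.card_singleton]
    have : K * (1 / K) = 1 := by field_simp
    rw [this]; norm_num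
  · intro f hf
    have h1 : f (t a s) = γ a * f s := hf (s, a) (Finset.mem_singleton_self _)
    show ρ (γ a * f s) (f (t a s)) ≤ 1 / K
    rw [h1, hρ.self]
    positivity

end

/-- Pulling back a bi-invariant pseudometric along a homomorphism. -/
theorem IsBiPseudo.comap {Γ Δ : Type*} [Group Γ] [Group Δ] {ρ : Δ → Δ → ℝ} (h : IsBiPseudo ρ)
    (θ : Γ →* Δ) : IsBiPseudo (fun x y => ρ (θ x) (θ y)) where
  nonneg _ _ := h.nonneg _ _
  le_one _ _ := h.le_one _ _
  self _ := h.self _
  symm _ _ := h.symm _ _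
  triangle _ _ _ := h.triangle _ _ _
  biinv a x y b := by simp only [map_mul, h.biinv]

/-- Averages of bi-invariant pseudometrics. -/
theorem IsBiPseudo.average {Γ : Type*} [Group Γ] {N : ℕ} (hN : 0 < N) {ρ : Fin N → Γ → Γ → ℝ}
    (h : ∀ i, IsBiPseudo (ρ i)) : IsBiPseudo (fun x y => (∑ i, ρ i x y) / N) where
  nonneg x y := div_nonneg (Finset.sum_nonneg (fun i _ => (h i).nonneg _ _)) (Nat.cast_nonneg _)
  le_one x y := by
    have hN' : (0 : ℝ) < N := by exact_mod_cast hN
    rw [div_le_one hN']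
    calc ∑ i, ρ i x y ≤ ∑ i : Fin N, (1 : ℝ) := Finset.sum_le_sum (fun i _ => (h i).le_one _ _)
      _ = N := by simp
  self x := by simp [fun i => (h i).self x]
  symm x y := by simp only [fun i => (h i).symm x y]
  triangle x y z := by
    rw [← add_div, ← Finset.sum_add_distrib]
    apply div_le_div_of_nonneg_right _ (Nat.cast_nonneg _)
    exact Finset.sum_le_sum (fun i _ => (h i).triangle _ _ _)
  biinv a x y b := by simp only [fun i => (h i).biinv a x y b]

end Pool.Agent.H35.GEA
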