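import Mathlib

/-!
# A second moment bound on finite powers and near-invariant points
-/

namespace Pool.Agent.H35.GEA

open Finset

/-- Functions on `S ^ N` that change by at most `c` when one coordinate is changed have variance
at most `N c ^ 2`. -/
theorem exists_mean {S : Type} [Fintype S] [Nonempty S] [DecidableEq S] (c : ℝ) :
    ∀ (N : ℕ) (Φ : (Fin N → S) → ℝ),
      (∀ (s : Fin N → S) (i : Fin N) (a : S), |Φ (Function.update s i a) - Φ s| ≤ c) →
      ∃ μ : ℝ, ∑ s, (Φ s - μ) = 0 ∧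
        ∑ s, (Φ s - μ) ^ 2 ≤ N * c ^ 2 * (Fintype.card S : ℝ) ^ N := by
  intro N
  induction N with
  | zero =>
    intro Φ h
    refine ⟨Φ default, ?_, ?_⟩
    · rw [Fintype.sum_unique]; simp
    · rw [Fintype.sum_unique]; simp
  | succ N ih =>
    intro Φ h
    have hcard : (0 : ℝ) < Fintype.card S := by exact_mod_cast Fintype.card_pos
    have hcardN : (0 : ℝ) < (Fintype.card S : ℝ) ^ N := by positivity
    have hsumeq : ∀ g : (Fin (N + 1) → S) → ℝ,
        ∑ s, g s = ∑ a : S, ∑ s : Fin N → S, g (Fin.cons a s) := by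
      intro g
      rw [← (Fin.consEquiv (fun _ => S)).sum_comp g, Fintype.sum_prod_type]
      rfl
    have hc : ∀ a : S, ∃ μ : ℝ, ∑ s, (Φ (Fin.cons a s) - μ) = 0 ∧
        ∑ s, (Φ (Fin.cons a s) - μ) ^ 2 ≤ N * c ^ 2 * (Fintype.card S : ℝ) ^ N := by
      intro a
      apply ih
      intro s i b
      have := h (Fin.cons a s) i.succ b
      rwa [← Fin.cons_update] at this
    choose μ hμ0 hμ2 using hc
    have hcardfun : (Fintype.card (Fin N → S) : ℝ) = (Fintype.card S : ℝ) ^ N := by
      simp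
    have hdiff : ∀ a b : S, |μ a - μ b| ≤ c := by
      intro a b
      have h1 : ∑ s : Fin N → S, (Φ (Fin.cons a s) - Φ (Fin.cons b s))
          = (Fintype.card S : ℝ) ^ N * (μ a - μ b) := by
        have e1 := hμ0 a
        have e2 := hμ0 b
        rw [sum_sub_distrib, sum_const, card_univ, nsmul_eq_mul, hcardfun] at e1 e2
        rw [sum_sub_distrib]
        linarith
      have h2 : |∑ s : Fin N → S, (Φ (Fin.cons a s) - Φ (Fin.cons b s))|
          ≤ (Fintype.card S : ℝ) ^ N * c := by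
        calc |∑ s : Fin N → S, (Φ (Fin.cons a s) - Φ (Fin.cons b s))|
            ≤ ∑ s : Fin N → S, |Φ (Fin.cons a s) - Φ (Fin.cons b s)| :=
              abs_sum_le_sum_abs _ _
          _ ≤ ∑ s : Fin N → S, c := by
              apply sum_le_sum
              intro s _
              have := h (Fin.cons b s) 0 a
              rwa [Fin.update_cons_zero] at this
          _ = (Fintype.card S : ℝ) ^ N * c := by
              rw [sum_const, card_univ, nsmul_eq_mul, hcardfun]
      rw [h1, abs_mul, abs_of_pos hcardN] at h2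
      exact le_of_mul_le_mul_left h2 hcardN
    let M : ℝ := (∑ a, μ a) / Fintype.card S
    have hM : ∑ a, (μ a - M) = 0 := by
      rw [sum_sub_distrib, sum_const, card_univ, nsmul_eq_mul]
      simp only [M]
      field_simp
      ring
    have hMdiff : ∀ a, |μ a - M| ≤ c := by
      intro a
      have h1 : (Fintype.card S : ℝ) * (μ a - M) = ∑ b, (μ a - μ b) := by
        rw [sum_sub_distrib, sum_const, card_univ, nsmul_eq_mul]
        simp only [M]
        field_simp
      have h2 : |∑ b, (μ a - μ b)| ≤ (Fintype.card S : ℝ) * c := by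
        calc |∑ b, (μ a - μ b)| ≤ ∑ b, |μ a - μ b| := abs_sum_le_sum_abs _ _
          _ ≤ ∑ b : S, c := sum_le_sum (fun b _ => hdiff a b)
          _ = (Fintype.card S : ℝ) * c := by rw [sum_const, card_univ, nsmul_eq_mul]
      rw [← h1, abs_mul, abs_of_pos hcard] at h2
      exact le_of_mul_le_mul_left h2 hcard
    refine ⟨M, ?_, ?_⟩
    · rw [hsumeq]
      have : ∀ a : S, ∑ s : Fin N → S, (Φ (Fin.cons a s) - M)
          = (Fintype.card S : ℝ) ^ N * (μ a - M) := by
        intro a
        have e1 := hμ0 a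
        rw [sum_sub_distrib, sum_const, card_univ, nsmul_eq_mul, hcardfun] at e1
        rw [sum_sub_distrib, sum_const, card_univ, nsmul_eq_mul, hcardfun]
        linarith
      rw [sum_congr rfl (fun a _ => this a), ← mul_sum, hM, mul_zero]
    · rw [hsumeq]
      have hterm : ∀ a : S, ∑ s : Fin N → S, (Φ (Fin.cons a s) - M) ^ 2
          ≤ (N : ℝ) * c ^ 2 * (Fintype.card S : ℝ) ^ N + (Fintype.card S : ℝ) ^ N * c ^ 2 := by
        intro a
        have e0 : ∑ s : Fin N → S, (Φ (Fin.cons a s) - M) ^ 2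
            = ∑ s : Fin N → S, (Φ (Fin.cons a s) - μ a) ^ 2
              + 2 * (μ a - M) * ∑ s : Fin N → S, (Φ (Fin.cons a s) - μ a)
              + (Fintype.card S : ℝ) ^ N * (μ a - M) ^ 2 := by
          rw [mul_sum, ← sum_add_distrib]
          have : (Fintype.card S : ℝ) ^ N * (μ a - M) ^ 2
              = ∑ s : Fin N → S, (μ a - M) ^ 2 := by
            rw [sum_const, card_univ, nsmul_eq_mul, hcardfun]
          rw [this, ← sum_add_distrib]
          apply sum_congr rfl
          intro s _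
          ring
        rw [e0, hμ0 a, mul_zero, add_zero]
        have h3 : (μ a - M) ^ 2 ≤ c ^ 2 := by
          have := hMdiff a
          rw [← sq_abs (μ a - M)]
          exact pow_le_pow_left₀ (abs_nonneg _) this 2
        have h4 := mul_le_mul_of_nonneg_left h3 hcardN.le
        linarith [hμ2 a]
      calc ∑ a : S, ∑ s : Fin N → S, (Φ (Fin.cons a s) - M) ^ 2
          ≤ ∑ a : S, ((N : ℝ) * c ^ 2 * (Fintype.card S : ℝ) ^ N
              + (Fintype.card S : ℝ) ^ N * c ^ 2) := sum_le_sum (fun a _ => hterm a)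
        _ = ((N + 1 : ℕ) : ℝ) * c ^ 2 * (Fintype.card S : ℝ) ^ (N + 1) := by
            rw [sum_const, card_univ, nsmul_eq_mul]
            push_cast
            ring

/-- For finitely many permutations and finitely many functions of small coordinate oscillation
there is a point almost fixed by all the permutations as seen by all the functions. -/
theorem exists_almost_fixed {S : Type} [Fintype S] [Nonempty S] [DecidableEq S] (N : ℕ) (c η : ℝ)
    {A : Type*} {B : Type*} [Fintype A] [Fintype B] (σ : A → Equiv.Perm (Fin N → S))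
    (Φ : B → (Fin N → S) → ℝ)
    (h : ∀ b (s : Fin N → S) (i : Fin N) (a : S), |Φ b (Function.update s i a) - Φ b s| ≤ c)
    (hη : 0 ≤ η)
    (hc : 4 * (Fintype.card A * Fintype.card B : ℝ) * (N * c ^ 2) < η ^ 2) :
    ∃ s, ∀ a b, |Φ b (σ a s) - Φ b s| ≤ η := by
  classical
  by_contra hcon
  push Not at hcon
  have hcardfun : (Fintype.card (Fin N → S) : ℝ) = (Fintype.card S : ℝ) ^ N := by simp
  have hcard : (0 : ℝ) < Fintype.card S := by exact_mod_cast Fintype.card_pos
  have hcardN : (0 : ℝ) < (Fintype.card S : ℝ) ^ N := by positivity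
  have hupper : ∀ a b, ∑ s, (Φ b (σ a s) - Φ b s) ^ 2
      ≤ 4 * (N * c ^ 2 * (Fintype.card S : ℝ) ^ N) := by
    intro a b
    obtain ⟨μ, _, hμ⟩ := exists_mean c N (Φ b) (h b)
    have h1 : ∑ s, (Φ b (σ a s) - μ) ^ 2 = ∑ s, (Φ b s - μ) ^ 2 :=
      Equiv.sum_comp (σ a) (fun s => (Φ b s - μ) ^ 2)
    calc ∑ s, (Φ b (σ a s) - Φ b s) ^ 2
        ≤ ∑ s, (2 * (Φ b (σ a s) - μ) ^ 2 + 2 * (Φ b s - μ) ^ 2) := by
          apply sum_le_sum
          intro s _
          nlinarith [sq_nonneg ((Φ b (σ a s) - μ) + (Φ b s - μ))]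
      _ = 4 * ∑ s, (Φ b s - μ) ^ 2 := by
          rw [sum_add_distrib, ← mul_sum, ← mul_sum, h1]; ring
      _ ≤ _ := by linarith
  have hlower : ∀ s : Fin N → S, η ^ 2 ≤ ∑ a, ∑ b, (Φ b (σ a s) - Φ b s) ^ 2 := by
    intro s
    obtain ⟨a, b, hab⟩ := hcon s
    have h1 : (Φ b (σ a s) - Φ b s) ^ 2 ≤ ∑ b, (Φ b (σ a s) - Φ b s) ^ 2 :=
      single_le_sum (f := fun b => (Φ b (σ a s) - Φ b s) ^ 2) (fun _ _ => sq_nonneg _)
        (mem_univ b)
    have h2 : ∑ b, (Φ b (σ a s) - Φ b s) ^ 2 ≤ ∑ a, ∑ b, (Φ b (σ a s) - Φ b s) ^ 2 :=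
      single_le_sum (f := fun a => ∑ b, (Φ b (σ a s) - Φ b s) ^ 2)
        (fun _ _ => sum_nonneg (fun _ _ => sq_nonneg _)) (mem_univ a)
    have h3 : η ^ 2 ≤ (Φ b (σ a s) - Φ b s) ^ 2 := by
      rw [← sq_abs (Φ b (σ a s) - Φ b s)]
      exact pow_le_pow_left₀ hη hab.le 2
    linarith
  have htot1 : (Fintype.card S : ℝ) ^ N * η ^ 2
      ≤ ∑ s : Fin N → S, ∑ a, ∑ b, (Φ b (σ a s) - Φ b s) ^ 2 := by
    calc (Fintype.card S : ℝ) ^ N * η ^ 2 = ∑ s : Fin N → S, η ^ 2 := by
          rw [sum_const, card_univ, nsmul_eq_mul, hcardfun]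
      _ ≤ _ := sum_le_sum (fun s _ => hlower s)
  have htot2 : ∑ s : Fin N → S, ∑ a, ∑ b, (Φ b (σ a s) - Φ b s) ^ 2
      ≤ (Fintype.card A * Fintype.card B : ℝ) * (4 * (N * c ^ 2 * (Fintype.card S : ℝ) ^ N)) := by
    rw [sum_comm]
    calc ∑ a, ∑ s : Fin N → S, ∑ b, (Φ b (σ a s) - Φ b s) ^ 2
        ≤ ∑ a : A, ∑ b : B, 4 * (N * c ^ 2 * (Fintype.card S : ℝ) ^ N) := by
          apply sum_le_sum
          intro a _
          rw [sum_comm]
          apply sum_le_sum
          intro b _
          exact hupper a b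
      _ = _ := by
          rw [sum_const, sum_const, card_univ, card_univ, nsmul_eq_mul, nsmul_eq_mul]
          ring
  have h5 := htot1.trans htot2
  have h6 : (Fintype.card A * Fintype.card B : ℝ) * (4 * (N * c ^ 2 * (Fintype.card S : ℝ) ^ N))
      = (Fintype.card S : ℝ) ^ N
        * (4 * (Fintype.card A * Fintype.card B : ℝ) * (N * c ^ 2)) := by ring
  rw [h6] at h5
  have h7 := le_of_mul_le_mul_left h5 hcardN
  linarith

end Pool.Agent.H35.GEA
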