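import Pool.Agent.H35.GEA.Girth
import Pool.Agent.H35.GEA.Moment
import Pool.Agent.H35.GEA.KyFan

/-!
# Approximating a bi-invariant metric on the free group by one with almost invariant families
-/

namespace Pool.Agent.H35.GEA

open FreeGroup

/-- The subgroup generated by the first `M` generators. -/
def low (M : ℕ) : Subgroup (FreeGroup ℕ) := Subgroup.closure (FreeGroup.of '' {i | i < M})

theorem low_mono {M M' : ℕ} (h : M ≤ M') : low M ≤ low M' := by
  apply Subgroup.closure_mono
  apply Set.image_mono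
  intro i hi
  exact lt_of_lt_of_le hi h

theorem exists_low (x : FreeGroup ℕ) : ∃ M, x ∈ low M := by
  induction x using FreeGroup.induction_on with
  | C1 => exact ⟨0, Subgroup.one_mem _⟩
  | of i => exact ⟨i + 1, Subgroup.subset_closure ⟨i, Nat.lt_succ_self i, rfl⟩⟩
  | inv_of i ih =>
    obtain ⟨M, hM⟩ := ih
    exact ⟨M, Subgroup.inv_mem _ hM⟩
  | mul x y ihx ihy =>
    obtain ⟨M, hM⟩ := ihx
    obtain ⟨M', hM'⟩ := ihy
    exact ⟨max M M', Subgroup.mul_mem _ (low_mono (le_max_left _ _) hM)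
      (low_mono (le_max_right _ _) hM')⟩

/-- Existence of a finite almost invariant family, indexed by a finite power of a finite set, on
which a change of one coordinate is a small move. -/
def Inv (m k : ℕ) (ρ : FreeGroup ℕ → FreeGroup ℕ → ℝ) : Prop :=
  ∃ (S : Type) (_ : Fintype S) (_ : DecidableEq S) (_ : Nonempty S) (N : ℕ) (_ : k < N)
    (σ : Fin m → Equiv.Perm (Fin N → S)) (h : (Fin N → S) → FreeGroup ℕ),
    (∀ (a : Fin m) (s : Fin N → S),
      ρ (FreeGroup.of (a : ℕ) * h s) (h (σ a s)) < 1 / ((k : ℝ) + 1)) ∧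
      ∀ s i b, ρ (h (Function.update s i b)) (h s) < 2 / (N : ℝ)

theorem exists_near (ρ₀ : FreeGroup ℕ → FreeGroup ℕ → ℝ) (h₀ : IsBiPseudo ρ₀)
    (h₀' : ∀ x y, ρ₀ x y = 0 → x = y) (m k M : ℕ) (hm : m ≤ M) :
    ∃ ρ : FreeGroup ℕ → FreeGroup ℕ → ℝ, IsBiPseudo ρ ∧ (∀ x y, ρ x y = 0 → x = y) ∧
      (∀ x ∈ low M, ∀ y ∈ low M, ρ x y = ρ₀ x y) ∧ Inv m k ρ := by
  classical
  obtain ⟨S, _, _, t, hS⟩ := exists_finite_group m (2 * (k + 1))
  let K : ℝ := 2 * ((k : ℝ) + 1)
  have hk0 : (0 : ℝ) < (k : ℝ) + 1 := by positivity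
  have hK : 0 < K := by positivity
  let N : ℕ := k + 1
  have hN : 0 < N := Nat.succ_pos k
  have hNr : (N : ℝ) = (k : ℝ) + 1 := by simp [N]
  let idx : (Fin N → S) → ℕ := fun s => M + (Fintype.equivFin (Fin N → S) s : ℕ)
  have hidx : Function.Injective idx := by
    intro s s' h
    have h1 : (Fintype.equivFin (Fin N → S) s : ℕ) = (Fintype.equivFin (Fin N → S) s' : ℕ) := by
      simpa [idx] using h
    exact (Fintype.equivFin (Fin N → S)).injective (Fin.ext h1)
  let T : Fin m → S → S := fun a s => t a * s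
  let γ : Fin m → FreeGroup ℕ := fun a => FreeGroup.of (a : ℕ)
  let gens : Fin N → ℕ → ((S → FreeGroup ℕ) → FreeGroup ℕ) := fun i =>
    Function.extend idx (fun s f => f (s i)) (fun j _ => FreeGroup.of j)
  have hgens1 : ∀ i s, gens i (idx s) = fun f => f (s i) := fun i s => hidx.extend_apply _ _ s
  have hgens2 : ∀ i j, j < M → gens i j = fun _ => FreeGroup.of j := by
    intro i j hj
    apply Function.extend_apply'
    rintro ⟨s, hs⟩
    simp only [idx] at hs
    omega
  let θ : Fin N → FreeGroup ℕ →* ((S → FreeGroup ℕ) → FreeGroup ℕ) := fun i =>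
    FreeGroup.lift (gens i)
  have hθof : ∀ i j, θ i (FreeGroup.of j) = gens i j := fun i j => lift_apply_of
  let diag : FreeGroup ℕ →* ((S → FreeGroup ℕ) → FreeGroup ℕ) :=
    MonoidHom.pi (fun _ => MonoidHom.id _)
  have hdiag : ∀ x, diag x = fun _ => x := fun x => rfl
  have hlow : ∀ i, ∀ x ∈ low M, θ i x = fun _ => x := by
    intro i x hx
    have : Set.EqOn (θ i) diag (Subgroup.closure (FreeGroup.of '' {i | i < M})) := by
      apply MonoidHom.eqOn_closure
      rintro _ ⟨j, hj, rfl⟩
      rw [hθof, hgens2 i j hj, hdiag]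
    exact this hx
  let d : ((S → FreeGroup ℕ) → FreeGroup ℕ) → ((S → FreeGroup ℕ) → FreeGroup ℕ) → ℝ :=
    kf T γ K ρ₀
  have hd : IsBiPseudo d := kf_isBiPseudo hK.le h₀
  have hdconst : ∀ g g', d (fun _ => g) (fun _ => g') = ρ₀ g g' := by
    apply kf_const hK.le h₀
    intro E hE
    have hE' : E.card ≤ 2 * (k + 1) := by
      have : (E.card : ℝ) ≤ ((2 * (k + 1) : ℕ) : ℝ) := by
        push_cast; exact hE
      exact_mod_cast this
    obtain ⟨w, hw⟩ := hS E hE'
    refine ⟨fun s => FreeGroup.map (fun a : Fin m => (a : ℕ)) (w s), ?_⟩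
    intro e he
    show FreeGroup.map (fun a : Fin m => (a : ℕ)) (w (t e.2 * e.1)) = _
    rw [hw e he, _root_.map_mul, FreeGroup.map.of]
  let ρ' : FreeGroup ℕ → FreeGroup ℕ → ℝ := fun x y => (∑ i, d (θ i x) (θ i y)) / N
  have hρ' : IsBiPseudo ρ' := IsBiPseudo.average hN (fun i => hd.comap (θ i))
  let δ : ℝ := 1 / (4 * ((k : ℝ) + 1))
  have hδ0 : 0 < δ := by positivity
  have hδ1 : δ < 1 := by
    simp only [δ]
    rw [div_lt_one (by positivity)]
    linarith [Nat.cast_nonneg (α := ℝ) k]
  let ρ : FreeGroup ℕ → FreeGroup ℕ → ℝ := fun x y => (1 - δ) * ρ' x y + δ * ρ₀ x y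
  have hρ'low : ∀ x ∈ low M, ∀ y ∈ low M, ρ' x y = ρ₀ x y := by
    intro x hx y hy
    simp only [ρ']
    have : ∀ i, d (θ i x) (θ i y) = ρ₀ x y := by
      intro i
      rw [hlow i x hx, hlow i y hy, hdconst]
    rw [Finset.sum_congr rfl (fun i _ => this i), Finset.sum_const, Finset.card_univ,
      Fintype.card_fin, nsmul_eq_mul]
    have : (N : ℝ) ≠ 0 := by rw [hNr]; positivity
    field_simp
  have hle : ∀ x y, ρ x y ≤ ρ' x y + δ := by
    intro x y
    have h1 := hρ'.nonneg x y
    have h2 := h₀.le_one x y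
    simp only [ρ]
    nlinarith
  refine ⟨ρ, ?_, ?_, ?_, ?_⟩
  · refine ⟨?_, ?_, ?_, ?_, ?_, ?_⟩
    · intro x y
      have h1 := hρ'.nonneg x y
      have h2 := h₀.nonneg x y
      simp only [ρ]
      have h3 : 0 ≤ 1 - δ := by linarith
      positivity
    · intro x y
      have h1 := hρ'.le_one x y
      have h2 := h₀.le_one x y
      simp only [ρ]
      nlinarith
    · intro x
      simp only [ρ]
      rw [hρ'.self, h₀.self]; ring
    · intro x y
      simp only [ρ]
      rw [hρ'.symm, h₀.symm]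
    · intro x y z
      have h1 := hρ'.triangle x y z
      have h2 := h₀.triangle x y z
      simp only [ρ]
      have h3 : 0 ≤ 1 - δ := by linarith
      have h4 := mul_le_mul_of_nonneg_left h1 h3
      have h5 := mul_le_mul_of_nonneg_left h2 hδ0.le
      linarith
    · intro a x y b
      simp only [ρ]
      rw [hρ'.biinv, h₀.biinv]
  · intro x y hxy
    apply h₀'
    have h1 := hρ'.nonneg x y
    have h2 := h₀.nonneg x y
    simp only [ρ] at hxy
    have h3 : 0 ≤ (1 - δ) * ρ' x y := mul_nonneg (by linarith) h1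
    have h4 : 0 ≤ δ * ρ₀ x y := mul_nonneg hδ0.le h2
    have h5 : δ * ρ₀ x y = 0 := by linarith
    rcases mul_eq_zero.1 h5 with h6 | h6
    · exact absurd h6 hδ0.ne'
    · exact h6
  · intro x hx y hy
    simp only [ρ]
    rw [hρ'low x hx y hy]; ring
  · let tp : Fin m → Equiv.Perm S := fun a => Equiv.mulLeft (t a)
    refine ⟨S, inferInstance, inferInstance, inferInstance, N, Nat.lt_succ_self k,
      fun a => Equiv.piCongrRight (fun _ => tp a), fun s => FreeGroup.of (idx s), ?_, ?_⟩
    · intro a s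
      have hterm : ∀ i, d (θ i (FreeGroup.of (a : ℕ) * FreeGroup.of (idx s)))
          (θ i (FreeGroup.of (idx (Equiv.piCongrRight (fun _ => tp a) s)))) ≤ 1 / K := by
        intro i
        rw [_root_.map_mul, hθof, hθof, hθof, hgens1, hgens1, hgens2 i a (by omega)]
        exact kf_eval hK h₀ a (s i)
      have h1 : ρ' (FreeGroup.of (a : ℕ) * FreeGroup.of (idx s))
          (FreeGroup.of (idx (Equiv.piCongrRight (fun _ => tp a) s))) ≤ 1 / K := by
        simp only [ρ']
        have hN' : (0 : ℝ) < N := by rw [hNr]; exact hk0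
        rw [div_le_iff₀ hN']
        calc _ ≤ ∑ i : Fin N, 1 / K := Finset.sum_le_sum (fun i _ => hterm i)
          _ = 1 / K * N := by
            rw [Finset.sum_const, Finset.card_univ, Fintype.card_fin, nsmul_eq_mul]; ring
      calc ρ (FreeGroup.of (a : ℕ) * FreeGroup.of (idx s))
            (FreeGroup.of (idx (Equiv.piCongrRight (fun _ => tp a) s))) ≤ 1 / K + δ :=
            (hle _ _).trans (by linarith)
        _ < 1 / ((k : ℝ) + 1) := by
          simp only [K, δ]
          rw [show (1 : ℝ) / (2 * ((k : ℝ) + 1)) + 1 / (4 * ((k : ℝ) + 1))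
            = 3 / 4 * (1 / ((k : ℝ) + 1)) by field_simp; ring]
          have : (0 : ℝ) < 1 / ((k : ℝ) + 1) := by positivity
          linarith
    · intro s i b
      have hterm : ∀ j, d (θ j (FreeGroup.of (idx (Function.update s i b))))
          (θ j (FreeGroup.of (idx s))) ≤ if j = i then 1 else 0 := by
        intro j
        rw [hθof, hθof, hgens1, hgens1]
        by_cases hj : j = i
        · rw [if_pos hj]
          exact hd.le_one _ _
        · rw [if_neg hj, Function.update_of_ne hj, hd.self]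
      have h1 : ρ' (FreeGroup.of (idx (Function.update s i b))) (FreeGroup.of (idx s))
          ≤ 1 / N := by
        simp only [ρ']
        apply div_le_div_of_nonneg_right _ (Nat.cast_nonneg _)
        calc _ ≤ ∑ j : Fin N, (if j = i then (1 : ℝ) else 0) :=
              Finset.sum_le_sum (fun j _ => hterm j)
          _ = 1 := by simp
      calc ρ (FreeGroup.of (idx (Function.update s i b))) (FreeGroup.of (idx s))
          ≤ 1 / N + δ := (hle _ _).trans (by linarith)
        _ < 2 / N := by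
          rw [hNr]
          simp only [δ]
          rw [show (1 : ℝ) / ((k : ℝ) + 1) + 1 / (4 * ((k : ℝ) + 1))
            = 5 / 4 * (1 / ((k : ℝ) + 1)) by field_simp; ring,
            show (2 : ℝ) / ((k : ℝ) + 1) = 2 * (1 / ((k : ℝ) + 1)) by ring]
          have : (0 : ℝ) < 1 / ((k : ℝ) + 1) := by positivity
          linarith

end Pool.Agent.H35.GEA
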